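import Pool.Agent.Work.MP_1aab6d_co.Defs

set_option autoImplicit false

namespace Unf

open Finset Classical

variable {V : Type*} (G : SimpleGraph V)

/-- The finite set of neighbours of a vertex of finite degree (empty otherwise). -/
noncomputable def nb (v : V) : Finset V :=
  if h : (G.neighborSet v).Finite then h.toFinset else ∅

lemma mem_nb {v w : V} (h : ¬ Inf G v) : w ∈ nb G v ↔ G.Adj v w := by
  have h' : (G.neighborSet v).Finite := by simpa [Inf] using h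
  simp [nb, h']

/-- Boundary sum of the weight `f` over the pairs `(x, y)`, `x ∈ Q`, `y ∉ Q`, `y ~ x`. -/
noncomputable def en (f : V → V → ℤ) (Q : Finset V) : ℤ := ∑ x ∈ Q, ∑ y ∈ nb G x \ Q, f x y

/-- Cross sum. -/
noncomputable def cr (f : V → V → ℤ) (P Q : Finset V) : ℤ := ∑ x ∈ P, ∑ y ∈ nb G x ∩ Q, f x y

variable {G}

lemma en_empty (f : V → V → ℤ) : en G f ∅ = 0 := by simp [en]

lemma en_mono {f g : V → V → ℤ} {Q : Finset V}
    (h : ∀ x ∈ Q, ∀ y ∈ nb G x, y ∉ Q → f x y ≤ g x y) : en G f Q ≤ en G g Q := by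
  unfold en
  refine Finset.sum_le_sum fun x hx => Finset.sum_le_sum fun y hy => ?_
  rw [mem_sdiff] at hy
  exact h x hx y hy.1 hy.2

lemma en_congr {f g : V → V → ℤ} {Q : Finset V}
    (h : ∀ x ∈ Q, ∀ y ∈ nb G x, y ∉ Q → f x y = g x y) : en G f Q = en G g Q :=
  le_antisymm (en_mono fun x hx y hy h1 => (h x hx y hy h1).le)
    (en_mono fun x hx y hy h1 => (h x hx y hy h1).ge)

lemma en_union (f : V → V → ℤ) {P Q : Finset V} (hd : Disjoint P Q) :
    en G f (P ∪ Q) = en G f P + en G f Q - cr G f P Q - cr G f Q P := by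
  unfold en cr
  rw [Finset.sum_union hd]
  have key : ∀ (A B : Finset V), Disjoint A B → ∀ x ∈ A,
      ∑ y ∈ nb G x \ A, f x y = ∑ y ∈ nb G x \ (A ∪ B), f x y + ∑ y ∈ nb G x ∩ B, f x y := by
    intro A B hAB x _
    rw [← Finset.sum_union]
    · congr 1
      ext y
      have h0 : y ∈ A → y ∉ B := fun h => Finset.disjoint_left.1 hAB h
      simp only [mem_sdiff, mem_union, mem_inter]
      tauto
    · rw [Finset.disjoint_left]
      intro y hy hy'
      simp only [mem_sdiff, mem_union, mem_inter] at hy hy'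
      tauto
  have h1 := Finset.sum_congr rfl (key P Q hd)
  have h2 := Finset.sum_congr rfl (key Q P hd.symm)
  rw [Finset.sum_add_distrib] at h1 h2
  rw [Finset.union_comm Q P] at h2
  linarith

lemma cr_symm {f : V → V → ℤ} {P Q : Finset V} (hP : ∀ x ∈ P, ¬ Inf G x) (hQ : ∀ x ∈ Q, ¬ Inf G x)
    (h : ∀ x ∈ P, ∀ y ∈ Q, G.Adj x y → f x y = f y x) : cr G f P Q = cr G f Q P := by
  unfold cr
  have e1 : ∀ (A B : Finset V), (∀ x ∈ A, ¬ Inf G x) → ∀ x ∈ A, ∑ y ∈ nb G x ∩ B, f x y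
      = ∑ y ∈ B, if G.Adj x y then f x y else 0 := by
    intro A B hA x hx
    rw [← Finset.sum_filter]
    congr 1
    ext y
    simp only [mem_inter, mem_filter, mem_nb G (hA x hx)]
    tauto
  rw [Finset.sum_congr rfl (e1 P Q hP), Finset.sum_congr rfl (e1 Q P hQ), Finset.sum_comm]
  refine Finset.sum_congr rfl fun y hy => Finset.sum_congr rfl fun x hx => ?_
  by_cases hxy : G.Adj x y
  · rw [if_pos hxy, if_pos hxy.symm, h x hx y hy hxy]
  · rw [if_neg hxy, if_neg (fun h' => hxy h'.symm)]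

lemma cr_mono {f g : V → V → ℤ} {P Q : Finset V}
    (h : ∀ x ∈ P, ∀ y ∈ nb G x, y ∈ Q → f x y ≤ g x y) : cr G f P Q ≤ cr G g P Q := by
  unfold cr
  refine Finset.sum_le_sum fun x hx => Finset.sum_le_sum fun y hy => ?_
  rw [mem_inter] at hy
  exact h x hx y hy.1 hy.2

lemma cr_congr {f g : V → V → ℤ} {P Q : Finset V}
    (h : ∀ x ∈ P, ∀ y ∈ nb G x, y ∈ Q → f x y = g x y) : cr G f P Q = cr G g P Q :=
  le_antisymm (cr_mono fun x hx y hy h1 => (h x hx y hy h1).le)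
    (cr_mono fun x hx y hy h1 => (h x hx y hy h1).ge)

lemma cr_nonneg {f : V → V → ℤ} {P Q : Finset V}
    (h : ∀ x ∈ P, ∀ y ∈ nb G x, y ∈ Q → 0 ≤ f x y) : 0 ≤ cr G f P Q := by
  unfold cr
  refine Finset.sum_nonneg fun x hx => Finset.sum_nonneg fun y hy => ?_
  rw [mem_inter] at hy
  exact h x hx y hy.1 hy.2

lemma cr_add (f g : V → V → ℤ) (P Q : Finset V) :
    cr G (fun x y => f x y + g x y) P Q = cr G f P Q + cr G g P Q := by
  simp [cr, Finset.sum_add_distrib]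

lemma cr_smul (a : ℤ) (f : V → V → ℤ) (P Q : Finset V) :
    cr G (fun x y => a * f x y) P Q = a * cr G f P Q := by
  simp [cr, Finset.mul_sum]

/-- Adding on the part of the boundary inside `B` (disjoint from `Q`). -/
lemma en_add_ind (f g : V → V → ℤ) {Q B : Finset V} (hd : Disjoint Q B) :
    en G (fun x y => f x y + if y ∈ B then g x y else 0) Q = en G f Q + cr G g Q B := by
  unfold en cr
  rw [← Finset.sum_add_distrib]
  refine Finset.sum_congr rfl fun x hx => ?_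
  rw [Finset.sum_add_distrib, ← Finset.sum_filter]
  congr 2
  ext y
  have h0 : y ∈ Q → y ∉ B := fun h => Finset.disjoint_left.1 hd h
  simp only [mem_sdiff, mem_inter, mem_filter]
  tauto

/-! ### Partial colourings -/

/-- Weight of the pair `(x, y)` in the partial colouring `(R, ρ)`: `1` if `y` is coloured and has
the colour other than that of `x`, and `-1` otherwise. -/
noncomputable def eps (R : Set V) (ρ : V → Bool) (x y : V) : ℤ :=
  if y ∈ R ∧ ρ y ≠ ρ x then 1 else -1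

lemma eps_le_one (R : Set V) (ρ : V → Bool) (x y : V) : eps R ρ x y ≤ 1 := by
  unfold eps; split_ifs <;> norm_num

lemma neg_one_le_eps (R : Set V) (ρ : V → Bool) (x y : V) : -1 ≤ eps R ρ x y := by
  unfold eps; split_ifs <;> norm_num

lemma eps_eq_one {R : Set V} {ρ : V → Bool} {x y : V} (h : y ∈ R) (h' : ρ y ≠ ρ x) :
    eps R ρ x y = 1 := if_pos ⟨h, h'⟩

lemma eps_eq_neg {R : Set V} {ρ : V → Bool} {x y : V} (h : ¬ (y ∈ R ∧ ρ y ≠ ρ x)) :
    eps R ρ x y = -1 := if_neg h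

lemma eps_symm {R : Set V} {ρ : V → Bool} {x y : V} (hx : x ∈ R) (hy : y ∈ R) :
    eps R ρ x y = eps R ρ y x := by
  unfold eps
  simp only [hx, hy, true_and, ne_comm]

variable (G)

/-- The partial colouring `(R, ρ)` is strong: no finite set of coloured vertices of finite degree
can be flipped with profit, the edges to uncoloured vertices counting as monochromatic. -/
def FS (R : Set V) (ρ : V → Bool) : Prop :=
  ∀ Q : Finset V, (∀ x ∈ Q, x ∈ R ∧ ¬ Inf G x) → 0 ≤ en G (eps R ρ) Q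

/-- Total strong colourings. -/
def TM (c : V → Bool) : Prop := FS G Set.univ c

/-- `v` has infinitely many neighbours of the other colour. -/
def Happy (c : V → Bool) (v : V) : Prop := {y | G.Adj v y ∧ c y ≠ c v}.Infinite

variable {G}

lemma en_eps_mono {R R' : Set V} {ρ ρ' : V → Bool} {Q : Finset V} (hR : R ⊆ R')
    (he : ∀ v ∈ R, ρ' v = ρ v) (hQ : ∀ x ∈ Q, x ∈ R) :
    en G (eps R ρ) Q ≤ en G (eps R' ρ') Q := by
  refine en_mono fun x hx y _ _ => ?_
  by_cases h : y ∈ R ∧ ρ y ≠ ρ x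
  · rw [eps_eq_one h.1 h.2, eps_eq_one (hR h.1)]
    rw [he y h.1, he x (hQ x hx)]; exact h.2
  · rw [eps_eq_neg h]; exact neg_one_le_eps _ _ _ _

theorem FS.glue {R R' : Set V} {ρ ρ' : V → Bool} (h : FS G R ρ) (hR : R ⊆ R')
    (he : ∀ v ∈ R, ρ' v = ρ v)
    (hn : ∀ Q : Finset V, (∀ x ∈ Q, x ∈ R' ∧ x ∉ R ∧ ¬ Inf G x) → 0 ≤ en G (eps R' ρ') Q) :
    FS G R' ρ' := by
  intro Q hQ
  set Q1 := Q.filter (· ∈ R) with hQ1
  set Q2 := Q.filter (· ∉ R) with hQ2
  have hd : Disjoint Q1 Q2 := by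
    rw [Finset.disjoint_left]; intro x h1 h2
    rw [mem_filter] at h1 h2; exact h2.2 h1.2
  have hU : Q = Q1 ∪ Q2 := (Finset.filter_union_filter_not_eq (· ∈ R) Q).symm
  have m1 : ∀ x ∈ Q1, x ∈ R ∧ ¬ Inf G x := fun x hx => by
    rw [hQ1, mem_filter] at hx; exact ⟨hx.2, (hQ x hx.1).2⟩
  have m2 : ∀ x ∈ Q2, x ∈ R' ∧ x ∉ R ∧ ¬ Inf G x := fun x hx => by
    rw [hQ2, mem_filter] at hx; exact ⟨(hQ x hx.1).1, hx.2, (hQ x hx.1).2⟩
  have h1 := h Q1 m1
  have h2 := hn Q2 m2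
  have hs : cr G (eps R' ρ') Q2 Q1 = cr G (eps R' ρ') Q1 Q2 :=
    cr_symm (fun x hx => (m2 x hx).2.2) (fun x hx => (m1 x hx).2)
      (fun x hx y hy _ => eps_symm (m2 x hx).1 (hR (m1 y hy).1))
  have h3 : en G (eps R ρ) Q1 + cr G (fun x y => 1 + eps R' ρ' x y) Q1 Q2
      ≤ en G (eps R' ρ') Q1 := by
    rw [← en_add_ind _ _ hd]
    refine en_mono fun x hx y _ _ => ?_
    by_cases hy : y ∈ Q2
    · rw [if_pos hy, eps_eq_neg (fun h => (m2 y hy).2.1 h.1)]; linarith
    · rw [if_neg hy, add_zero]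
      by_cases h' : y ∈ R ∧ ρ y ≠ ρ x
      · rw [eps_eq_one h'.1 h'.2, eps_eq_one (hR h'.1)]
        rw [he y h'.1, he x (m1 x hx).1]; exact h'.2
      · rw [eps_eq_neg h']; exact neg_one_le_eps _ _ _ _
  have h4 : 0 ≤ cr G (fun x y => 1 + (-1) * eps R' ρ' x y) Q1 Q2 :=
    cr_nonneg fun x _ y _ _ => by have := eps_le_one R' ρ' x y; linarith
  rw [cr_add, cr_smul] at h4
  rw [cr_add] at h3
  rw [hU, en_union _ hd, hs]
  linarith

end Unf
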