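import Mathlib

/-!
# Unfriendly partitions of countable graphs: definitions

`I` = vertices of infinite degree, `F` = vertices of finite degree.
-/

set_option autoImplicit false

namespace Unf

variable {V : Type*} (G : SimpleGraph V)

/-- The vertex `v` has infinitely many neighbours. -/
def Inf (v : V) : Prop := (G.neighborSet v).Infinite

/-- `Reach G W x a`: there is a walk from `x` to `a` all of whose vertices after `x` have finite
degree and lie outside `W`.  For `x` of finite degree outside `W`, the set `{a | Reach G W x a}` is
the component of `x` in the subgraph of `G - W` induced by the vertices of finite degree. -/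
def Reach (W : Set V) (x a : V) : Prop :=
  Relation.ReflTransGen (fun p q => G.Adj p q ∧ ¬ Inf G q ∧ q ∉ W) x a

/-- The component of `x` in the subgraph of `G` induced by the vertices of finite degree. -/
def comp (x : V) : Set V := {a | Reach G ∅ x a}

/-- The vertices of infinite degree which have a neighbour in the component of `x`. -/
def bd (x : V) : Set V := {v | Inf G v ∧ ∃ a ∈ comp G x, G.Adj a v}

/-- `x` is a vertex of finite degree outside `W` whose component `C` in the subgraph of `G - W`
induced by the vertices of finite degree is such that the edges of `G - W` with at least one end in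
`C` form a bipartite graph. -/
def Tame (W : Set V) (x : V) : Prop :=
  ¬ Inf G x ∧ x ∉ W ∧
    ∃ s : V → Bool, ∀ a, Reach G W x a → ∀ b, G.Adj a b → b ∉ W → s a ≠ s b

/-- `x` is a vertex of finite degree whose component in the subgraph induced by the vertices of
finite degree is finite and has at most three neighbours of infinite degree. -/
def Small (x : V) : Prop :=
  ¬ Inf G x ∧ (comp G x).Finite ∧ (bd G x).encard ≤ 3

/-- The partition of the vertices given by `c` is unfriendly: every vertex has at least as many
neighbours (as a cardinal) in the other class as in its own class. -/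
def Unfriendly (c : V → Bool) : Prop :=
  ∀ v, Cardinal.mk {w : V // G.Adj v w ∧ c w = c v} ≤ Cardinal.mk {w : V // G.Adj v w ∧ c w ≠ c v}

/-- The condition imposed on (almost all) vertices `u` of infinite degree. -/
def Good (u : V) : Prop :=
  (∃ W : Set V, W.Finite ∧ {x | G.Adj u x ∧ (Inf G x ∨ Tame G W x ∨ Small G x)}.Infinite) ∨
  (∃ X : Set V, X ⊆ G.neighborSet u ∧ X.Infinite ∧ (∀ x ∈ X, ¬ Inf G x ∧ (comp G x).Finite) ∧
    ∀ v, v ≠ u → {x ∈ X | v ∈ bd G x}.Finite) ∨
  (∃ X : Set V, X ⊆ G.neighborSet u ∧ X.Infinite ∧ (∀ x ∈ X, ¬ Inf G x ∧ (comp G x).Finite) ∧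
    (⋃ x ∈ X, bd G x).Finite)

end Unf
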