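import Pool.Agent.Work.MP_1aab6d_co.Max

set_option autoImplicit false

namespace Unf

open Finset Classical

variable {V : Type*} {G : SimpleGraph V} {S R : Set V} {τ ρ : V → Bool}

/-- Extending a state by a finite component and its boundary. -/
lemma St.serve (h : St G S τ R ρ) {c : V → Bool} (hc : TM G c) {ρ' : V → Bool}
    (he : ∀ v ∈ R, ρ' v = ρ v) {x : V} (hx : ¬ Inf G x) (hf : (comp G x).Finite)
    (hw : ∀ a ∈ comp G x, a ∉ R → ∀ b, G.Adj a b → c b ≠ c a → ρ' b ≠ ρ' a) :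
    St G S τ (R ∪ (comp G x ∪ bd G x)) ρ' := by
  refine h.extend Set.subset_union_left he ((hf.union (bd_finite hx hf)).subset ?_) ?_
  · rintro y ⟨hy1 | hy1, hy2⟩
    · exact absurd hy1 hy2
    · exact hy1
  · intro Q hQ
    refine (hc Q fun a ha => ⟨Set.mem_univ _, (hQ a ha).2.2⟩).trans (en_mono fun a ha y hy _ => ?_)
    obtain ⟨h1, h2, h3⟩ := hQ a ha
    have hac : a ∈ comp G x := by
      rcases h1 with h1 | h1 | h1
      · exact absurd h1 h2
      · exact h1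
      · exact absurd h1.1 h3
    by_cases hcy : c y ≠ c a
    · have hadj := (mem_nb G h3).1 hy
      rw [eps_eq_one (R := R ∪ (comp G x ∪ bd G x)) (Or.inr (comp_adj hac hadj))
        (hw a hac h2 y hadj hcy)]
      exact eps_le_one _ _ _ _
    · rw [eps_eq_neg (fun h => hcy h.2)]
      exact neg_one_le_eps _ _ _ _

/-- Lemma J. -/
lemma St.serv_J (h : St G S τ R ρ) (hM : Mx G S τ) {u : V} (hu : Inf G u) (huS : u ∉ S)
    (hX : {x | G.Adj u x ∧ ¬ Inf G x ∧ (comp G x).Finite ∧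
      ∀ v ∈ bd G x, v ∈ R → v ∉ S → v = u}.Infinite) : Serv G S τ R ρ u := by
  obtain ⟨c, hc, hcS, hcu, hn⟩ := hM.single hu huS (!(ρ u))
  have hO : {y | G.Adj u y ∧ c y ≠ c u}.Finite := Set.not_infinite.1 hn
  have hbad := (finite_hit (G := G) (hO.union h.2.2.1)).union (h.finite_adj hM hu huS)
  obtain ⟨x, ⟨hux, hx, hf, hb⟩, hxn⟩ := (hX.sdiff hbad).nonempty
  rw [Set.mem_union, not_or] at hxn
  obtain ⟨hx1, hx2⟩ := hxn
  have hA : ∀ z ∈ comp G x, ¬ (G.Adj u z ∧ c z ≠ c u) ∧ (z ∈ R → z ∈ S) := by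
    intro z hz
    have : z ∉ {y | G.Adj u y ∧ c y ≠ c u} ∪ (R \ S) := fun hz' => hx1 ⟨hx, hf, z, hz', hz⟩
    rw [Set.mem_union, not_or] at this
    refine ⟨this.1, fun hzR => ?_⟩
    by_contra hzS
    exact this.2 ⟨hzR, hzS⟩
  have hxR : x ∉ R := fun hxR => hx2 ⟨hxR, hux⟩
  set ρ' : V → Bool := fun v => if v ∈ R then ρ v else c v with hρ'
  have e1 : ∀ v ∈ R, ρ' v = ρ v := fun v hv => if_pos hv
  have e2 : ∀ v, v ∉ R → ρ' v = c v := fun v hv => if_neg hv
  have e3 : ∀ v, (v ∈ R → v ∈ S) → ρ' v = c v := by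
    intro v hv
    by_cases hvR : v ∈ R
    · rw [e1 v hvR, h.2.1 v (hv hvR), hcS v (hv hvR)]
    · exact e2 v hvR
  refine ⟨_, ρ', h.serve hc e1 hx hf ?_, Set.subset_union_left, e1, x,
    Or.inr (Or.inl (mem_comp_self x)), hxR, hux, ?_⟩
  · intro a ha haR b hab hcb
    rw [e2 a haR]
    rcases comp_adj ha hab with hb' | hb'
    · rw [e3 b (hA b hb').2]; exact hcb
    · by_cases hbS : b ∈ R → b ∈ S
      · rw [e3 b hbS]; exact hcb
      · push Not at hbS
        have : b = u := hb b hb' hbS.1 hbS.2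
        subst this
        exact absurd ⟨hab.symm, hcb.symm⟩ (hA a ha).1
  · rw [e2 x hxR]
    have : c x = c u := by
      by_contra hne
      exact (hA x (mem_comp_self x)).1 ⟨hux, hne⟩
    rw [this, hcu]; simp

/-- Lemma K. -/
lemma St.finite_K (h : St G S τ R ρ) (hM : Mx G S τ) {u : V} (hu : Inf G u) (huS : u ∉ S) :
    {x | G.Adj u x ∧ ¬ Inf G x ∧ (comp G x).Finite ∧ bd G x ⊆ R}.Finite := by
  by_contra hinf
  obtain ⟨c, hcR, hc⟩ := exists_total h.2.2.2
  set X := {x | G.Adj u x ∧ ¬ Inf G x ∧ (comp G x).Finite ∧ bd G x ⊆ R} with hX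
  let U : V → Set V := fun x => {v | v ∈ R \ S ∧ ∀ y ∈ comp G x, G.Adj v y → c y = c v}
  have hpig : ∃ T, T ⊆ R \ S ∧ {x | x ∈ X ∧ U x = T}.Infinite := by
    by_contra hcon
    push Not at hcon
    apply hinf
    have : (⋃ T ∈ {T | T ⊆ R \ S}, {x | x ∈ X ∧ U x = T}).Finite :=
      h.2.2.1.finite_subsets.biUnion fun T hT => hcon T hT
    refine this.subset fun x hx => ?_
    exact Set.mem_biUnion (x := U x) (fun v hv => hv.1) ⟨hx, rfl⟩
  obtain ⟨T, hT, hXT⟩ := hpig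
  set S' : Set V := (S ∪ {v | v ∈ R \ S ∧ Inf G v ∧ v ∉ T}) ∪ ⋃ x ∈ {x | x ∈ X ∧ U x = T}, comp G x
    with hS'
  have hsub : S ⊆ S' := fun v hv => Or.inl (Or.inl hv)
  have hcS : ∀ v ∈ S, c v = τ v := fun v hv => (hcR v (h.1 hv)).trans (h.2.1 v hv)
  have hmem : ∀ y ∈ S', y ∉ S → ¬ Inf G y → ∃ x, x ∈ X ∧ U x = T ∧ y ∈ comp G x := by
    rintro y ((hy | hy) | hy) hyS hyI
    · exact absurd hy hyS
    · exact absurd hy.2.1 hyI
    · simp only [Set.mem_iUnion] at hy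
      obtain ⟨x, hx, hy⟩ := hy
      exact ⟨x, hx.1, hx.2, hy⟩
  have hcomp : ∀ x, x ∈ X → U x = T → comp G x ⊆ S' := by
    intro x hx hU y hy
    exact Or.inr (Set.mem_biUnion (show x ∈ {x | x ∈ X ∧ U x = T} from ⟨hx, hU⟩) hy)
  have hle : S' ⊆ S := by
    refine hM.le (τ' := c) hsub hcS ?_ ?_ ?_
    · refine hM.1.1.glue hsub hcS fun Q hQ => ?_
      refine (hc Q fun a ha => ⟨Set.mem_univ _, (hQ a ha).2.2⟩).trans
        (en_mono fun a ha y hy _ => ?_)
      obtain ⟨h1, h2, h3⟩ := hQ a ha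
      obtain ⟨x, hx, hU, hax⟩ := hmem a h1 h2 h3
      by_cases hcy : c y ≠ c a
      · have hadj := (mem_nb G h3).1 hy
        have hyS' : y ∈ S' := by
          rcases comp_adj hax hadj with hy' | hy'
          · exact hcomp x hx hU hy'
          · by_cases hyS : y ∈ S
            · exact hsub hyS
            · refine Or.inl (Or.inr ⟨⟨hx.2.2.2 hy', hyS⟩, hy'.1, fun hyT => ?_⟩)
              rw [← hU] at hyT
              exact hcy (hyT.2 a hax hadj.symm).symm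
        rw [eps_eq_one hyS' hcy]
        exact eps_le_one _ _ _ _
      · rw [eps_eq_neg (fun h => hcy h.2)]
        exact neg_one_le_eps _ _ _ _
    · intro c' hc' hcc v hv hvS hvI
      have hvT : v ∈ R \ S ∧ v ∉ T := by
        rcases hv with (hv | hv) | hv
        · exact absurd hv hvS
        · exact ⟨hv.1, hv.2.2⟩
        · simp only [Set.mem_iUnion] at hv
          obtain ⟨x, hx, hv⟩ := hv
          exact absurd hvI (comp_not_inf hx.1.2.1 hv)
      by_contra hnh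
      refine hXT ((finite_hit (G := G) (Set.not_infinite.1 hnh)).subset ?_)
      rintro x ⟨hx, hU⟩
      refine ⟨hx.2.1, hx.2.2.1, ?_⟩
      have : ¬ ∀ y ∈ comp G x, G.Adj v y → c y = c v := fun hall =>
        hvT.2 (hU ▸ (⟨hvT.1, hall⟩ : v ∈ U x))
      push Not at this
      obtain ⟨y, hy, hvy, hne⟩ := this
      refine ⟨y, ⟨hvy, ?_⟩, hy⟩
      rw [hcc y (hcomp x hx hU hy), hcc v hv]; exact hne
    · intro y hy hyS hys
      obtain ⟨x, hx, hU, hyx⟩ := hmem y hy hyS hys.1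
      rw [comp_eq hx.2.1 hyx]; exact hcomp x hx hU
  refine hXT ((hM.finite_adj hu huS).subset ?_)
  rintro x ⟨hx, hU⟩
  exact ⟨hle (hcomp x hx hU (mem_comp_self x)), hx.1⟩

lemma three_eq {A : Set V} {u v z b : V} (hA : A.encard ≤ 3) (hu : u ∈ A) (hv : v ∈ A) (hz : z ∈ A)
    (hb : b ∈ A) (huv : u ≠ v) (huz : u ≠ z) (hvz : v ≠ z) : b = u ∨ b = v ∨ b = z := by
  by_contra hcon
  push Not at hcon
  have h4 : ({b, u, v, z} : Set V).encard = 4 := by
    rw [Set.encard_insert_of_notMem (by simp [hcon]), Set.encard_insert_of_notMem (by simp [huv, huz]),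
      Set.encard_pair hvz]
    norm_num
  have : ({b, u, v, z} : Set V) ⊆ A := by
    rintro w (rfl | rfl | rfl | rfl) <;> assumption
  have h5 := Set.encard_le_encard this
  rw [h4] at h5
  exact absurd (h5.trans hA) (by norm_num)

/-- Service by small components. -/
lemma St.serv_small (h : St G S τ R ρ) (hM : Mx G S τ) {u : V} (hu : Inf G u) (huR : u ∈ R)
    (huS : u ∉ S) (hX : {x | G.Adj u x ∧ Small G x}.Infinite) : Serv G S τ R ρ u := by
  by_contra hns
  have hK := h.finite_K hM hu huS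
  have hJ := Set.not_infinite.1 (fun hinf => hns (h.serv_J hM hu huS hinf))
  have hX' := hX.sdiff (hK.union hJ)
  have hpig : ∃ v ∈ R \ S, v ≠ u ∧
      {x | G.Adj u x ∧ Small G x ∧ v ∈ bd G x ∧ ∃ z ∈ bd G x, z ∉ R}.Infinite := by
    by_contra hcon
    push Not at hcon
    refine hX' ?_
    have : (⋃ v ∈ {v | v ∈ R \ S ∧ v ≠ u},
        {x | G.Adj u x ∧ Small G x ∧ v ∈ bd G x ∧ ∃ z ∈ bd G x, z ∉ R}).Finite :=
      (h.2.2.1.subset fun v hv => hv.1).biUnion
        fun v hv => hcon v hv.1 hv.2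
    refine this.subset ?_
    rintro x ⟨⟨hux, hxs⟩, hxn⟩
    rw [Set.mem_union, not_or] at hxn
    obtain ⟨h1, h2⟩ := hxn
    have hz : ∃ z ∈ bd G x, z ∉ R := by
      by_contra hz
      push Not at hz
      exact h1 ⟨hux, hxs.1, hxs.2.1, hz⟩
    have hv : ∃ v ∈ bd G x, v ∈ R ∧ v ∉ S ∧ v ≠ u := by
      by_contra hv
      push Not at hv
      exact h2 ⟨hux, hxs.1, hxs.2.1, hv⟩
    obtain ⟨v, hv1, hv2, hv3, hv4⟩ := hv
    exact Set.mem_biUnion (show v ∈ {v | v ∈ R \ S ∧ v ≠ u} from ⟨⟨hv2, hv3⟩, hv4⟩)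
      ⟨hux, hxs, hv1, hz⟩
  obtain ⟨v, ⟨hvR, hvS⟩, hvu, hXv⟩ := hpig
  have hvI : Inf G v := by
    obtain ⟨x, hx⟩ := hXv.nonempty
    exact hx.2.2.1.1
  obtain ⟨c, hc, hcS, hcv, hn⟩ := hM.single hvI hvS (ρ v)
  have hO : {y | G.Adj v y ∧ c y ≠ c v}.Finite := Set.not_infinite.1 hn
  have hbad := (finite_hit (G := G) (hO.union h.2.2.1)).union (h.finite_adj hM hu huS)
  obtain ⟨x, ⟨hux, hxs, hvx, z, hzx, hzR⟩, hxn⟩ := (hXv.sdiff hbad).nonempty
  rw [Set.mem_union, not_or] at hxn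
  obtain ⟨hx1, hx2⟩ := hxn
  have hxR : x ∉ R := fun hxR => hx2 ⟨hxR, hux⟩
  have hx := hxs.1
  have hcR : ∀ a ∈ comp G x, a ∉ R := by
    intro a ha haR
    by_cases haS : a ∈ S
    · have := hM.1.2.2 a haS (hxs.of_mem ha) (comp_symm hx ha)
      exact hxR (h.1 this)
    · exact hx1 ⟨hx, hxs.2.1, a, Or.inr ⟨haR, haS⟩, ha⟩
  have hcO : ∀ a ∈ comp G x, G.Adj v a → c a = c v := by
    intro a ha hva
    by_contra hne
    exact hx1 ⟨hx, hxs.2.1, a, Or.inl ⟨hva, hne⟩, ha⟩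
  have hux' : u ∈ bd G x := ⟨hu, x, mem_comp_self x, hux.symm⟩
  have hadj : ∀ a ∈ comp G x, ∀ b, G.Adj a b → b ∉ R ∨ b = u ∨ b = v := by
    intro a ha b hab
    rcases comp_adj ha hab with hb | hb
    · exact Or.inl (hcR b hb)
    · rcases three_eq hxs.2.2 hux' hvx hzx hb hvu.symm (fun e => hzR (e ▸ huR))
        (fun e => hzR (e ▸ hvR)) with rfl | rfl | rfl
      · exact Or.inr (Or.inl rfl)
      · exact Or.inr (Or.inr rfl)
      · exact Or.inl hzR
  -- the flip parameter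
  have hj : ∃ j : Bool, (∀ a ∈ comp G x, G.Adj u a → c u ≠ c a → ρ u ≠ xor (c a) j) ∧
      ∃ y ∈ comp G x, G.Adj u y ∧ xor (c y) j ≠ ρ u := by
    by_cases h1 : c u = ρ u
    · by_cases h2 : ∃ y ∈ comp G x, G.Adj u y ∧ c y ≠ ρ u
      · obtain ⟨y, hy1, hy2, hy3⟩ := h2
        refine ⟨false, fun a _ _ h3 => ?_, y, hy1, hy2, ?_⟩
        · rw [Bool.xor_false, ← h1]; exact h3
        · rw [Bool.xor_false]; exact hy3
      · push Not at h2
        refine ⟨true, fun a ha hua h3 => absurd (h1.trans (h2 a ha hua).symm) h3, x,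
          mem_comp_self x, hux, ?_⟩
        rw [h2 x (mem_comp_self x) hux]
        cases ρ u <;> simp
    · by_cases h2 : ∃ y ∈ comp G x, G.Adj u y ∧ c y = ρ u
      · obtain ⟨y, hy1, hy2, hy3⟩ := h2
        refine ⟨true, fun a _ _ h3 => ?_, y, hy1, hy2, ?_⟩
        · revert h1 h3
          cases c u <;> cases ρ u <;> cases c a <;> simp
        · rw [hy3]; cases ρ u <;> simp
      · push Not at h2
        refine ⟨false, fun a ha hua _ => ?_, x, mem_comp_self x, hux, ?_⟩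
        · rw [Bool.xor_false]; exact (h2 a ha hua).symm
        · rw [Bool.xor_false]; exact h2 x (mem_comp_self x) hux
  obtain ⟨j, hj1, y, hy1, hy2, hy3⟩ := hj
  set ρ' : V → Bool := fun w => if w ∈ R then ρ w else xor (c w) j with hρ'
  have e1 : ∀ w ∈ R, ρ' w = ρ w := fun w hw => if_pos hw
  have e2 : ∀ w, w ∉ R → ρ' w = xor (c w) j := fun w hw => if_neg hw
  refine hns ⟨_, ρ', h.serve hc e1 hx hxs.2.1 ?_, Set.subset_union_left, e1, y,
    Or.inr (Or.inl hy1), hcR y hy1, hy2, ?_⟩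
  · intro a ha haR b hab hcb
    rw [e2 a haR]
    rcases hadj a ha b hab with hb | rfl | rfl
    · rw [e2 b hb]
      revert hcb
      cases c a <;> cases c b <;> cases j <;> simp
    · rw [e1 b huR]
      exact hj1 a ha hab.symm hcb
    · exact absurd (hcO a ha hab.symm).symm hcb
  · rw [e2 y (hcR y hy1)]; exact hy3

end Unf
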