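import Pool.Agent.Work.MP_1aab6d_co.Max

set_option autoImplicit false

namespace Unf

open Finset Classical

variable {V : Type*} {G : SimpleGraph V}

lemma bool_aux1 {a b : Bool} (i : Bool) (h : a ≠ b) : (!(xor b i)) ≠ (!(xor a i)) := by
  revert h; cases a <;> cases b <;> cases i <;> simp

lemma bool_aux2 (a : Bool) : (!a) ≠ a := by cases a <;> simp

lemma en_glue {f f' : V → V → ℤ} {Q1 Q2 : Finset V} (hd : Disjoint Q1 Q2)
    (n1 : ∀ x ∈ Q1, ¬ Inf G x) (n2 : ∀ x ∈ Q2, ¬ Inf G x)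
    (h1 : ∀ x ∈ Q1, ∀ y, G.Adj x y → y ∉ Q2 → f x y ≤ f' x y)
    (h2 : ∀ x ∈ Q1, ∀ y ∈ Q2, G.Adj x y → f x y = -1)
    (h3 : ∀ x ∈ Q1, ∀ y ∈ Q2, G.Adj x y → f' x y ≤ 1)
    (h4 : ∀ x ∈ Q1, ∀ y ∈ Q2, G.Adj x y → f' x y = f' y x) :
    en G f Q1 + en G f' Q2 ≤ en G f' (Q1 ∪ Q2) := by
  have hs : cr G f' Q1 Q2 = cr G f' Q2 Q1 := cr_symm n1 n2 h4
  have e3 : en G f Q1 + cr G (fun x y => 1 + f' x y) Q1 Q2 ≤ en G f' Q1 := by
    rw [← en_add_ind _ _ hd]
    refine en_mono fun x hx y hy _ => ?_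
    have hadj := (mem_nb G (n1 x hx)).1 hy
    by_cases hyQ : y ∈ Q2
    · rw [if_pos hyQ, h2 x hx y hyQ hadj]; linarith
    · rw [if_neg hyQ, add_zero]; exact h1 x hx y hadj hyQ
  have e4 : 0 ≤ cr G (fun x y => 1 + (-1) * f' x y) Q1 Q2 :=
    cr_nonneg fun x hx y hy hyQ => by
      have := h3 x hx y hyQ ((mem_nb G (n1 x hx)).1 hy); linarith
  rw [cr_add, cr_smul] at e4
  rw [cr_add] at e3
  rw [en_union _ hd, ← hs]
  linarith

variable (G)

/-- The component of `x` in the subgraph of `G - W` induced by the vertices of finite degree. -/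
def RC (W : Set V) (x : V) : Set V := {a | Reach G W x a}

/-- A template of the component `C`. -/
noncomputable def tmpl (W C : Set V) : V → Bool :=
  if h : ∃ s : V → Bool, ∀ a ∈ C, ∀ b, G.Adj a b → b ∉ W → s a ≠ s b then h.choose
  else fun _ => false

/-- The value at `x` of the template of its component. -/
noncomputable def tt (W : Set V) (x : V) : Bool := tmpl G W (RC G W x) x

/-- The tame non-small vertices outside `R`. -/
def GG (W R : Set V) : Set V := {x | Tame G W x ∧ ¬ Small G x ∧ x ∉ R}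

/-- The weight. -/
noncomputable def ff (W R : Set V) (ρ : V → Bool) (i : Bool) (P : Set V) (x y : V) : ℤ :=
  if y ∈ P then 1 else if y ∈ GG G W R then -1 else
    if y ∈ R then (if ρ y ≠ xor (tt G W x) i then 1 else -1) else if Inf G y then 1 else -1

/-- Strong subsets of `GG`. -/
def Str (W R : Set V) (ρ : V → Bool) (i : Bool) (P : Set V) : Prop :=
  P ⊆ GG G W R ∧ ∀ Q : Finset V, (∀ x ∈ Q, x ∈ P) → 0 ≤ en G (ff G W R ρ i P) Q

/-- The union of the finite strong sets. -/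
def Lam (W R : Set V) (ρ : V → Bool) (i : Bool) : Set V :=
  {x | ∃ P : Finset V, Str G W R ρ i P ∧ x ∈ P}

/-- The rest of `GG`. -/
def The (W R : Set V) (ρ : V → Bool) (i : Bool) : Set V := GG G W R \ Lam G W R ρ i

variable {G}

lemma tmpl_spec {W : Set V} {x : V} (h : Tame G W x) : ∀ a, Reach G W x a → ∀ b, G.Adj a b →
    b ∉ W → tmpl G W (RC G W x) a ≠ tmpl G W (RC G W x) b := by
  have h' : ∃ s : V → Bool, ∀ a ∈ RC G W x, ∀ b, G.Adj a b → b ∉ W → s a ≠ s b := h.2.2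
  intro a ha b hab hb
  unfold tmpl
  rw [dif_pos h']
  exact h'.choose_spec a ha b hab hb

lemma Tame.of_reach {W : Set V} {x a : V} (h : Tame G W x) (ha : Reach G W x a) : Tame G W a := by
  have := reach_aux h.1 h.2.1 ha
  obtain ⟨s, hs⟩ := h.2.2
  refine ⟨this.1.1, this.1.2, s, fun b hb => hs b ?_⟩
  exact Relation.ReflTransGen.trans ha hb

lemma tt_eq {W : Set V} {x a : V} (h : Tame G W x) (ha : Reach G W x a) :
    tt G W a = tmpl G W (RC G W x) a := by
  have : RC G W a = RC G W x := reach_set_eq h.1 h.2.1 ha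
  unfold tt; rw [this]

lemma reach_adj {W : Set V} {x y : V} (h : G.Adj x y) (hy : ¬ Inf G y) (hyW : y ∉ W) :
    Reach G W x y := Relation.ReflTransGen.single ⟨h, hy, hyW⟩

lemma tt_ne {W : Set V} {x y : V} (hx : Tame G W x) (hy : Tame G W y) (h : G.Adj x y) :
    tt G W x ≠ tt G W y := by
  rw [tt_eq hx (reach_adj h hy.1 hy.2.1)]
  exact tmpl_spec hx x Relation.ReflTransGen.refl y h hy.2.1

variable {W R : Set V} {ρ : V → Bool} {i : Bool}

lemma ff_mono {P P' : Set V} (h : P ⊆ P') (x y : V) :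
    ff G W R ρ i P x y ≤ ff G W R ρ i P' x y := by
  unfold ff
  by_cases hy : y ∈ P
  · rw [if_pos hy, if_pos (h hy)]
  · rw [if_neg hy]
    by_cases hy' : y ∈ P'
    · rw [if_pos hy']; split_ifs <;> norm_num
    · rw [if_neg hy']

lemma ff_mem {P : Set V} {x y : V} (h : y ∈ P) : ff G W R ρ i P x y = 1 := if_pos h

lemma ff_GG {P : Set V} {x y : V} (h : y ∉ P) (h' : y ∈ GG G W R) : ff G W R ρ i P x y = -1 := by
  unfold ff; rw [if_neg h, if_pos h']

lemma Str.glue {P P' : Set V} (h : Str G W R ρ i P) (hP : P ⊆ P') (hP' : P' ⊆ GG G W R)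
    (hn : ∀ Q : Finset V, (∀ x ∈ Q, x ∈ P' ∧ x ∉ P) → 0 ≤ en G (ff G W R ρ i P') Q) :
    Str G W R ρ i P' := by
  refine ⟨hP', fun Q hQ => ?_⟩
  set Q1 := Q.filter (· ∈ P) with hQ1
  set Q2 := Q.filter (· ∉ P) with hQ2
  have hd : Disjoint Q1 Q2 := by
    rw [Finset.disjoint_left]; intro x h1 h2
    rw [mem_filter] at h1 h2; exact h2.2 h1.2
  have hU : Q = Q1 ∪ Q2 := (Finset.filter_union_filter_not_eq (· ∈ P) Q).symm
  have m1 : ∀ x ∈ Q1, x ∈ P := fun x hx => by
    rw [hQ1, mem_filter] at hx; exact hx.2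
  have m2 : ∀ x ∈ Q2, x ∈ P' ∧ x ∉ P := fun x hx => by
    rw [hQ2, mem_filter] at hx; exact ⟨hQ x hx.1, hx.2⟩
  have h1 := h.2 Q1 m1
  have h2 := hn Q2 m2
  have := en_glue (G := G) (f := ff G W R ρ i P) (f' := ff G W R ρ i P') hd
    (fun x hx => (h.1 (m1 x hx)).1.1) (fun x hx => (hP' (m2 x hx).1).1.1)
    (fun x _ y _ _ => ff_mono hP x y)
    (fun x _ y hy _ => ff_GG (m2 y hy).2 (hP' (m2 y hy).1))
    (fun x _ y hy _ => (ff_mem (m2 y hy).1).le)
    (fun x hx y hy _ => by rw [ff_mem (m2 y hy).1, ff_mem (hP (m1 x hx))])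
  rw [hU]; linarith

lemma Str.union {P P' : Set V} (h : Str G W R ρ i P) (h' : Str G W R ρ i P') :
    Str G W R ρ i (P ∪ P') := by
  refine h.glue Set.subset_union_left (Set.union_subset h.1 h'.1) fun Q hQ => ?_
  refine (h'.2 Q fun x hx => ?_).trans (en_mono fun x _ y _ _ => ff_mono Set.subset_union_right x y)
  rcases (hQ x hx).1 with h1 | h1
  · exact absurd h1 (hQ x hx).2
  · exact h1

lemma exists_Str (A : Finset V) (hA : ∀ x ∈ A, x ∈ Lam G W R ρ i) :
    ∃ P : Finset V, Str G W R ρ i P ∧ A ⊆ P := by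
  induction A using Finset.induction_on with
  | empty =>
    refine ⟨∅, ⟨by simp, fun Q hQ => ?_⟩, by simp⟩
    have : Q = ∅ := by
      rw [Finset.eq_empty_iff_forall_notMem]
      intro x hx; simpa using hQ x hx
    rw [this, en_empty]
  | insert a A _ ih =>
    obtain ⟨P, hP, hAP⟩ := ih fun x hx => hA x (Finset.mem_insert_of_mem hx)
    obtain ⟨P', hP', haP⟩ := hA a (Finset.mem_insert_self _ _)
    refine ⟨P ∪ P', ?_, ?_⟩
    · rw [Finset.coe_union]; exact hP.union hP'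
    · intro x hx
      rcases Finset.mem_insert.1 hx with rfl | hx
      · exact Finset.mem_union_right _ haP
      · exact Finset.mem_union_left _ (hAP hx)

lemma Lam_sub : Lam G W R ρ i ⊆ GG G W R := by
  rintro x ⟨P, hP, hx⟩
  exact hP.1 hx

/-- Lemma C. -/
lemma exists_neg {Z : Finset V} (hZ : ∀ x ∈ Z, x ∈ The G W R ρ i) (hne : Z.Nonempty) :
    ∃ Q ⊆ Z, Q.Nonempty ∧ en G (ff G W R ρ i (Lam G W R ρ i ∪ ↑Z)) Q < 0 := by
  by_contra hcon
  push Not at hcon
  have hcon' : ∀ Q ⊆ Z, 0 ≤ en G (ff G W R ρ i (Lam G W R ρ i ∪ ↑Z)) Q := by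
    intro Q hQ
    rcases Q.eq_empty_or_nonempty with rfl | hq
    · rw [en_empty]
    · exact hcon Q hQ hq
  obtain ⟨P, hP, hAP⟩ := exists_Str (G := G) (W := W) (R := R) (ρ := ρ) (i := i)
    ((Z.biUnion (nb G)).filter (· ∈ Lam G W R ρ i)) (fun x hx => (mem_filter.1 hx).2)
  have hPL : (P : Set V) ⊆ Lam G W R ρ i := fun x hx => ⟨P, hP, hx⟩
  have hS : Str G W R ρ i ((P ∪ Z : Finset V) : Set V) := by
    rw [Finset.coe_union]
    refine hP.glue Set.subset_union_left (Set.union_subset hP.1 fun x hx => (hZ x hx).1) ?_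
    intro Q hQ
    have hQZ : Q ⊆ Z := by
      intro x hx
      rcases (hQ x hx).1 with h1 | h1
      · exact absurd h1 (hQ x hx).2
      · exact h1
    refine (hcon' Q hQZ).trans_eq (en_congr fun x hx y hy _ => ?_)
    have hiff : y ∈ Lam G W R ρ i ∪ (Z : Set V) ↔ y ∈ (P : Set V) ∪ (Z : Set V) := by
      constructor
      · rintro (h1 | h1)
        · exact Or.inl (hAP (mem_filter.2 ⟨mem_biUnion.2 ⟨x, hQZ hx, hy⟩, h1⟩))
        · exact Or.inr h1
      · rintro (h1 | h1)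
        · exact Or.inl (hPL h1)
        · exact Or.inr h1
    unfold ff
    by_cases h1 : y ∈ Lam G W R ρ i ∪ (Z : Set V)
    · rw [if_pos h1, if_pos (hiff.1 h1)]
    · rw [if_neg h1, if_neg (fun h => h1 (hiff.2 h))]
  obtain ⟨z, hz⟩ := hne
  exact (hZ z hz).2 ⟨P ∪ Z, hS, Finset.mem_union_right _ hz⟩

/-- Lemma D. -/
lemma en_The_nonpos (n : ℕ) : ∀ Z : Finset V, Z.card ≤ n → (∀ x ∈ Z, x ∈ The G W R ρ i) →
    en G (ff G W R ρ i (Lam G W R ρ i)) Z ≤ 0 := by
  induction n with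
  | zero =>
    intro Z hZ _
    rw [Finset.card_eq_zero.1 (Nat.le_zero.1 hZ), en_empty]
  | succ n ih =>
    intro Z hcard hZ
    rcases Z.eq_empty_or_nonempty with rfl | hne
    · rw [en_empty]
    obtain ⟨Q, hQZ, hQ, hneg⟩ := exists_neg hZ hne
    set L := Lam G W R ρ i with hL
    set A := Z \ Q with hA
    have hcA : A.card ≤ n := by
      have h1 : A.card + Q.card = Z.card := Finset.card_sdiff_add_card_eq_card hQZ
      have := hQ.card_pos
      omega
    have hAZ : ∀ x ∈ A, x ∈ The G W R ρ i := fun x hx => hZ x (mem_sdiff.1 hx).1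
    have hQZ' : ∀ x ∈ Q, x ∈ The G W R ρ i := fun x hx => hZ x (hQZ hx)
    have h1 := ih A hcA hAZ
    have hd : Disjoint A Q := Finset.sdiff_disjoint
    have hU : Z = A ∪ Q := by rw [hA, Finset.sdiff_union_of_subset hQZ]
    have e1 : en G (ff G W R ρ i L) Z = en G (ff G W R ρ i L) A + en G (ff G W R ρ i L) Q
        - cr G (ff G W R ρ i L) A Q - cr G (ff G W R ρ i L) Q A := by
      conv_lhs => rw [hU]
      exact en_union _ hd
    have e2 : cr G (ff G W R ρ i L) A Q = cr G (ff G W R ρ i L) Q A :=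
      cr_symm (fun x hx => (hAZ x hx).1.1.1) (fun x hx => (hQZ' x hx).1.1.1)
        (fun x hx y hy _ => by
          rw [ff_GG (hAZ x hx).2 (hAZ x hx).1, ff_GG (hQZ' y hy).2 (hQZ' y hy).1])
    have e3 : en G (ff G W R ρ i (L ∪ ↑Z)) Q
        = en G (ff G W R ρ i L) Q + cr G (fun x y => (-2) * ff G W R ρ i L x y) Q A := by
      rw [← en_add_ind _ _ hd.symm]
      refine en_congr fun x hx y _ hyQ => ?_
      by_cases hyA : y ∈ A
      · have hyZ : y ∈ L ∪ (Z : Set V) := Or.inr (mem_sdiff.1 hyA).1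
        rw [if_pos hyA, ff_mem hyZ, ff_GG (hAZ y hyA).2 (hAZ y hyA).1]
        norm_num
      · rw [if_neg hyA, add_zero]
        have hyZ : y ∉ Z := fun h => hyA (mem_sdiff.2 ⟨h, hyQ⟩)
        unfold ff
        by_cases hyL : y ∈ L
        · have hyLZ : y ∈ L ∪ (Z : Set V) := Or.inl hyL
          rw [if_pos hyL, if_pos hyLZ]
        · have hyLZ : y ∉ L ∪ (Z : Set V) := fun h => h.elim hyL (fun h => hyZ h)
          rw [if_neg hyL, if_neg hyLZ]
    rw [cr_smul] at e3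
    linarith

variable {S : Set V} {τ : V → Bool}

/-- Lemma E. -/
theorem The_finite (h : St G S τ R ρ) (hM : Mx G S τ) (hW : W.Finite) (i : Bool) :
    (The G W R ρ i).Finite := by
  set Θ := The G W R ρ i with hΘ
  set L := Lam G W R ρ i with hL
  set χ : V → Bool := fun x => !(xor (tt G W x) i) with hχ
  let N : V → Set V := fun v => {x | x ∈ Θ ∧ G.Adj v x ∧ χ x ≠ ρ v}
  set Θ0 : Set V := (⋃ y ∈ {y | y ∈ R \ S ∧ (N y).Finite}, N y) ∪
    (⋃ y ∈ {y | y ∈ W ∧ ¬ Inf G y}, {x | x ∈ Θ ∧ G.Adj y x}) with hΘ0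
  have hΘ0f : Θ0.Finite := by
    refine Set.Finite.union ?_ ?_
    · exact (h.2.2.1.subset fun y hy => hy.1).biUnion fun y hy => hy.2
    · exact (hW.subset fun y hy => hy.1).biUnion fun y hy =>
        (Set.not_infinite.1 hy.2).subset fun x hx => hx.2
  have hΘ0s : Θ0 ⊆ Θ := by
    rintro x (hx | hx)
    · simp only [Set.mem_iUnion] at hx
      obtain ⟨y, _, hx⟩ := hx; exact hx.1
    · simp only [Set.mem_iUnion] at hx
      obtain ⟨y, _, hx⟩ := hx; exact hx.1
  have hΘR : ∀ x ∈ Θ, x ∉ R := fun x hx => hx.1.2.2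
  have hΘF : ∀ x ∈ Θ, ¬ Inf G x := fun x hx => hx.1.1.1
  obtain ⟨m, ⟨P, hP0, hPΘ, hPm⟩, hmin⟩ := Int.exists_least_of_bdd
    (P := fun z => ∃ P : Finset V, (∀ x ∈ Θ0, x ∈ P) ∧ (∀ x ∈ P, x ∈ Θ) ∧
      - en G (ff G W R ρ i L) P = z)
    ⟨0, by
      rintro z ⟨P, -, hP, rfl⟩
      have := en_The_nonpos P.card P le_rfl hP
      linarith⟩
    ⟨_, hΘ0f.toFinset, by simp, fun x hx => hΘ0s (by simpa using hx), rfl⟩
  set B : Set V := {v | v ∈ R \ S ∧ (N v).Infinite} with hB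
  set S' : Set V := (S ∪ B) ∪ {x | x ∈ Θ ∧ x ∉ P} with hS'
  set τ' : V → Bool := fun v => if v ∈ R then ρ v else χ v with hτ'
  have t1 : ∀ v ∈ R, τ' v = ρ v := fun v hv => if_pos hv
  have t2 : ∀ v, v ∉ R → τ' v = χ v := fun v hv => if_neg hv
  have hBI : ∀ v ∈ B, Inf G v := fun v hv => hv.2.mono fun x hx => hx.2.1
  have hsub : S ⊆ S' := fun v hv => Or.inl (Or.inl hv)
  have he : ∀ v ∈ S, τ' v = τ v := fun v hv => (t1 v (h.1 hv)).trans (h.2.1 v hv)
  have hnew : ∀ x ∈ S', x ∉ S → ¬ Inf G x → x ∈ Θ ∧ x ∉ P := by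
    rintro x ((hx | hx) | hx) hxS hxI
    · exact absurd hx hxS
    · exact absurd (hBI x hx) hxI
    · exact hx
  have hle : S' ⊆ S := by
    refine hM.le (τ' := τ') hsub he ?_ ?_ ?_
    · refine hM.1.1.glue hsub he fun Q hQ => ?_
      have hQ' : ∀ x ∈ Q, x ∈ Θ ∧ x ∉ P := fun x hx =>
        hnew x (hQ x hx).1 (hQ x hx).2.1 (hQ x hx).2.2
      have hd : Disjoint Q P := by
        rw [Finset.disjoint_left]; intro x hx; exact (hQ' x hx).2
      have hm := hmin _ ⟨P ∪ Q, fun x hx => Finset.mem_union_left _ (hP0 x hx), fun x hx => by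
        rcases Finset.mem_union.1 hx with hx | hx
        · exact hPΘ x hx
        · exact (hQ' x hx).1, rfl⟩
      rw [← hPm, en_union _ hd.symm] at hm
      have hs : cr G (ff G W R ρ i L) P Q = cr G (ff G W R ρ i L) Q P :=
        cr_symm (fun x hx => hΘF x (hPΘ x hx)) (fun x hx => hΘF x (hQ' x hx).1)
          (fun x hx y hy _ => by
            rw [ff_GG (hPΘ x hx).2 (hPΘ x hx).1, ff_GG (hQ' y hy).1.2 (hQ' y hy).1.1])
      have hneg : - en G (ff G W R ρ i L) Q = en G (fun x y => - ff G W R ρ i L x y) Q := by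
        simp [en]
      have key : 0 ≤ en G (fun x y => - ff G W R ρ i L x y + if y ∈ P then
          2 * ff G W R ρ i L x y else 0) Q := by
        rw [en_add_ind _ _ hd, cr_smul, ← hneg]
        linarith
      refine key.trans (en_mono fun x hx y hy _ => ?_)
      obtain ⟨hxΘ, hxP⟩ := hQ' x hx
      have hadj : G.Adj x y := (mem_nb G (hΘF x hxΘ)).1 hy
      have hxτ : τ' x = χ x := t2 x (hΘR x hxΘ)
      by_cases hyP : y ∈ P
      · rw [if_pos hyP, ff_GG (hPΘ y hyP).2 (hPΘ y hyP).1]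
        have := neg_one_le_eps S' τ' x y
        linarith
      rw [if_neg hyP, add_zero]
      by_cases hyL : y ∈ L
      · rw [ff_mem hyL]; exact neg_one_le_eps _ _ _ _
      by_cases hyG : y ∈ GG G W R
      · have hyΘ : y ∈ Θ := ⟨hyG, hyL⟩
        have hne : τ' y ≠ τ' x := by
          rw [hxτ, t2 y (hΘR y hyΘ)]
          exact bool_aux1 i (tt_ne hxΘ.1.1 hyG.1 hadj)
        rw [ff_GG hyL hyG, eps_eq_one (R := S') (Or.inr ⟨hyΘ, hyP⟩) hne]
        norm_num
      by_cases hyR : y ∈ R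
      · have ef : ff G W R ρ i L x y = if ρ y ≠ xor (tt G W x) i then 1 else -1 := by
          unfold ff; rw [if_neg hyL, if_neg hyG, if_pos hyR]
        rw [ef]
        by_cases hc : ρ y ≠ xor (tt G W x) i
        · rw [if_pos hc]; exact neg_one_le_eps _ _ _ _
        · rw [if_neg hc]
          have hρχ : χ x ≠ ρ y := by
            push Not at hc
            rw [hc]; exact bool_aux2 _
          have hyS' : y ∈ S' := by
            by_cases hyS : y ∈ S
            · exact hsub hyS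
            · refine Or.inl (Or.inr ⟨⟨hyR, hyS⟩, fun hfin => ?_⟩)
              refine hxP (hP0 x (Or.inl ?_))
              exact Set.mem_biUnion (show y ∈ {y | y ∈ R \ S ∧ (N y).Finite} from ⟨⟨hyR, hyS⟩, hfin⟩)
                ⟨hxΘ, hadj.symm, hρχ⟩
          rw [eps_eq_one hyS' (by rw [hxτ, t1 y hyR]; exact hρχ.symm)]
          norm_num
      · have ef : ff G W R ρ i L x y = if Inf G y then 1 else -1 := by
          unfold ff; rw [if_neg hyL, if_neg hyG, if_neg hyR]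
        rw [ef]
        by_cases hyI : Inf G y
        · rw [if_pos hyI]; exact neg_one_le_eps _ _ _ _
        · exfalso
          by_cases hyW : y ∈ W
          · refine hxP (hP0 x (Or.inr ?_))
            exact Set.mem_biUnion (show y ∈ {y | y ∈ W ∧ ¬ Inf G y} from ⟨hyW, hyI⟩)
              ⟨hxΘ, hadj.symm⟩
          · refine hyG ⟨hxΘ.1.1.of_reach (reach_adj hadj hyI hyW), fun hsm => ?_, hyR⟩
            exact hxΘ.1.2.1 (hsm.of_mem (reach_adj hadj.symm (hΘF x hxΘ) (Set.notMem_empty _)))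
    · intro c hc hcS v hv hvS hvI
      have hvB : v ∈ B := by
        rcases hv with (hv | hv) | hv
        · exact absurd hv hvS
        · exact hv
        · exact absurd hvI (hΘF v hv.1)
      have : (N v \ (P : Set V)).Infinite := hvB.2.sdiff P.finite_toSet
      refine this.mono ?_
      rintro x ⟨hx, hxP⟩
      refine ⟨hx.2.1, ?_⟩
      rw [hcS v hv, hcS x (Or.inr ⟨hx.1, hxP⟩), t1 v hvB.1.1, t2 x (hΘR x hx.1)]
      exact hx.2.2
    · intro x hx hxS hsm
      exact absurd hsm (hnew x hx hxS hsm.1).1.1.2.1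
  refine P.finite_toSet.subset fun x hx => ?_
  by_contra hxP
  exact hΘR x hx (h.1 (hle (Or.inr ⟨hx, hxP⟩)))

theorem St.serv_tame' (h : St G S τ R ρ) (hM : Mx G S τ) (hW : W.Finite)
    (hWR : ∀ w ∈ W, Inf G w → w ∈ R) {u : V} (hu : Inf G u) (huS : u ∉ S)
    (hX : {x | G.Adj u x ∧ Tame G W x ∧ ¬ Small G x}.Infinite) : Serv G S τ R ρ u := by
  have hbad := ((h.finite_adj hM hu huS).union (The_finite h hM hW true)).union
    (The_finite h hM hW false)
  obtain ⟨x, ⟨hux, hxT, hxs⟩, hxn⟩ := (hX.sdiff hbad).nonempty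
  rw [Set.mem_union, not_or, Set.mem_union, not_or] at hxn
  obtain ⟨⟨h1, h2⟩, h3⟩ := hxn
  have hxR : x ∉ R := fun hxR => h1 ⟨hxR, hux⟩
  have hxG : x ∈ GG G W R := ⟨hxT, hxs, hxR⟩
  set i : Bool := xor (tt G W x) (!(ρ u)) with hi
  have hxi : xor (tt G W x) i = !(ρ u) := by
    rw [hi]; cases tt G W x <;> cases ρ u <;> rfl
  have hxL : x ∈ Lam G W R ρ i := by
    by_contra hxL
    have hx' : x ∈ The G W R ρ i := ⟨hxG, hxL⟩
    cases hii : i
    · rw [hii] at hx'; exact h3 hx'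
    · rw [hii] at hx'; exact h2 hx'
  obtain ⟨P, hP, hxP⟩ := hxL
  set s := tmpl G W (RC G W x) with hs
  set C := P.filter (fun a => Reach G W x a) with hC
  have hCP : ∀ a ∈ C, a ∈ P ∧ Reach G W x a := fun a ha => mem_filter.1 ha
  set A : Set V := {w | Inf G w ∧ w ∉ R ∧ ∃ a ∈ C, G.Adj a w} with hA
  have hAf : A.Finite := by
    have : (⋃ a ∈ (C : Set V), G.neighborSet a).Finite :=
      C.finite_toSet.biUnion fun a ha => Set.not_infinite.1 (hP.1 (hCP a ha).1).1.1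
    refine this.subset ?_
    rintro w ⟨-, -, a, ha, haw⟩
    exact Set.mem_biUnion (show a ∈ (C : Set V) from ha) haw
  set ρ' : V → Bool := fun v => if v ∈ R then ρ v else xor (s v) i with hρ'
  have t1 : ∀ v ∈ R, ρ' v = ρ v := fun v hv => if_pos hv
  have t2 : ∀ v, v ∉ R → ρ' v = xor (s v) i := fun v hv => if_neg hv
  have hCR : ∀ a ∈ C, a ∉ R := fun a ha => (hP.1 (hCP a ha).1).2.2
  have hxC : x ∈ C := mem_filter.2 ⟨hxP, Relation.ReflTransGen.refl⟩
  refine ⟨R ∪ ((C : Set V) ∪ A), ρ', h.extend Set.subset_union_left t1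
    ((C.finite_toSet.union hAf).subset ?_) ?_, Set.subset_union_left, t1, x,
    Or.inr (Or.inl hxC), hxR, hux, ?_⟩
  · rintro y ⟨hy1 | hy1, hy2⟩
    · exact absurd hy1 hy2
    · exact hy1
  · intro Q hQ
    have hQC : ∀ a ∈ Q, a ∈ C := by
      intro a ha
      obtain ⟨h1, h2, h3⟩ := hQ a ha
      rcases h1 with h1 | h1 | h1
      · exact absurd h1 h2
      · exact h1
      · exact absurd h1.1 h3
    refine (hP.2 Q fun a ha => (hCP a (hQC a ha)).1).trans (en_mono fun a ha y hy _ => ?_)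
    have haC := hQC a ha
    obtain ⟨haP, har⟩ := hCP a haC
    have haF : ¬ Inf G a := (hP.1 haP).1.1
    have hadj : G.Adj a y := (mem_nb G haF).1 hy
    have hρa : ρ' a = xor (s a) i := t2 a (hCR a haC)
    have hsne : y ∉ W → s a ≠ s y := fun hyW => tmpl_spec hxT a har y hadj hyW
    have hxor : y ∉ R → y ∉ W → ρ' y ≠ ρ' a := by
      intro hyR hyW
      rw [hρa, t2 y hyR]
      have := hsne hyW
      revert this
      cases s a <;> cases s y <;> cases i <;> simp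
    by_cases hyP : y ∈ (P : Set V)
    · have hyG := hP.1 hyP
      have hyC : y ∈ C := mem_filter.2 ⟨hyP,
        Relation.ReflTransGen.trans har (reach_adj hadj hyG.1.1 hyG.1.2.1)⟩
      rw [ff_mem hyP, eps_eq_one (R := R ∪ ((C : Set V) ∪ A)) (Or.inr (Or.inl hyC))
        (hxor (hCR y hyC) hyG.1.2.1)]
    by_cases hyG : y ∈ GG G W R
    · rw [ff_GG hyP hyG]; exact neg_one_le_eps _ _ _ _
    by_cases hyR : y ∈ R
    · have ef : ff G W R ρ i P a y = if ρ y ≠ xor (tt G W a) i then 1 else -1 := by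
        unfold ff; rw [if_neg hyP, if_neg hyG, if_pos hyR]
      rw [ef]
      by_cases hc : ρ y ≠ xor (tt G W a) i
      · rw [if_pos hc, eps_eq_one (R := R ∪ ((C : Set V) ∪ A)) (Or.inl hyR)]
        rw [t1 y hyR, hρa, hs, ← tt_eq hxT har]; exact hc
      · rw [if_neg hc]; exact neg_one_le_eps _ _ _ _
    · have ef : ff G W R ρ i P a y = if Inf G y then 1 else -1 := by
        unfold ff; rw [if_neg hyP, if_neg hyG, if_neg hyR]
      rw [ef]
      by_cases hyI : Inf G y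
      · rw [if_pos hyI, eps_eq_one (R := R ∪ ((C : Set V) ∪ A)) (Or.inr (Or.inr ⟨hyI, hyR, a, haC, hadj⟩))
          (hxor hyR fun hyW => hyR (hWR y hyW hyI))]
      · rw [if_neg hyI]; exact neg_one_le_eps _ _ _ _
  · rw [t2 x hxR, hs, ← tt_eq hxT Relation.ReflTransGen.refl, hxi]; simp

theorem St.serv_tame (h : St G S τ R ρ) (hM : Mx G S τ) (hW : W.Finite) {u : V} (hu : Inf G u)
    (huR : u ∈ R) (huS : u ∉ S) (hX : {x | G.Adj u x ∧ Tame G W x ∧ ¬ Small G x}.Infinite) :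
    Serv G S τ R ρ u := by
  have h1 : St G S τ (R ∪ {w | w ∈ W ∧ Inf G w}) ρ :=
    h.addInf (hW.subset fun w hw => hw.1) (fun w hw => hw.2) fun _ _ => rfl
  exact (h1.serv_tame' hM hW (fun w hw hI => Or.inr ⟨hw, hI⟩) hu huS hX).of_ext
    Set.subset_union_left (fun _ _ => rfl) huR

end Unf
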